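import Pool.Agent.V8H82.MZ.Low

/-!
# Growth of the dimensions of the spaces of multiple Clausen values and of alternating sums

`ZZ N w` is `ℨ_w(N)`, `CC w` is `ℭ_w`, both as `ℚ`-subspaces of `ℂ` (definitions in
`Pool/Agent/V8H82/MZ/Defs.lean`); `dimAlg V` is the dimension, over the field `ℚ̄` of all algebraic
numbers, of the `ℚ̄`-span of `V`. It is at most the dimension of `V` over `ℚ`.
-/

set_option autoImplicit false

namespace Pool.Agent.Results.MP_528be1_nt.DimensionGrowth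

open Module Pool.Agent.V8H82.MZ

theorem result :
    -- the spaces are finite-dimensional, and `dimAlg` is a lower bound of the dimension over `ℚ`
    (∀ N w : ℕ, 1 ≤ N → FiniteDimensional ℚ (ZZ N w) ∧ dimAlg (ZZ N w) ≤ finrank ℚ (ZZ N w)) ∧
    (∀ w : ℕ, FiniteDimensional ℚ (CC w) ∧ dimAlg (CC w) ≤ finrank ℚ (CC w)) ∧
    -- superadditivity
    (∀ N v w : ℕ, 2 ≤ N → 1 ≤ v → 1 ≤ w →
      dimAlg (ZZ N v) + dimAlg (ZZ N w) ≤ dimAlg (ZZ N (v + w)) + 1) ∧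
    (∀ v w : ℕ, 1 ≤ v → 1 ≤ w → dimAlg (CC v) + dimAlg (CC w) ≤ dimAlg (CC (v + w)) + 1) ∧
    -- alternating sums
    (∀ w : ℕ, 1 ≤ w → w / 2 + 1 ≤ dimAlg (ZZ 2 w)) ∧
    (∀ u : ℕ, 1 ≤ u →
      (∀ x ∈ ZZ 2 u, ∃ c : ℕ → ℂ, (∀ j, IsAlgebraic ℚ (c j)) ∧
        x = ∑ j ∈ Finset.range (u / 2 + 1),
          c j * (((Real.log 2 : ℝ) : ℂ) ^ (u - 2 * j) * (Real.pi : ℂ) ^ (2 * j))) ∨
      ∀ w : ℕ, 1 ≤ w → w / 2 + w / (2 * u) + 1 ≤ dimAlg (ZZ 2 w)) ∧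
    -- multiple Clausen values
    (∀ w : ℕ, 2 ≤ w → 2 ≤ finrank ℚ (CC w)) ∧
    (∀ u : ℕ, 1 ≤ u →
      (∀ x ∈ CC u, ∃ a : ℂ, IsAlgebraic ℚ a ∧ x = a * (Real.pi : ℂ) ^ u) ∨
      ∀ w : ℕ, 1 ≤ w → w / u + 1 ≤ dimAlg (CC w)) ∧
    (∀ M : ℕ, (∀ w, 1 ≤ w → finrank ℚ (CC w) ≤ M) →
      ∃ K : IntermediateField ℚ ℂ, FiniteDimensional ℚ K ∧ finrank ℚ K ≤ M ∧
        ∀ w, 1 ≤ w → ∀ x ∈ CC w, ∃ a ∈ K, x = a * (Real.pi * Complex.I) ^ w) ∧
    -- any level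
    (∀ N w : ℕ, 2 ≤ N → 1 ≤ w → w * (finrank ℚ (ZZ N 1) - 1) + 1 ≤ dimAlg (ZZ N w)) ∧
    (∀ N w : ℕ, 3 ≤ N → 1 ≤ w → w * N.primeFactors.card + 1 ≤ dimAlg (ZZ N w)) := by
  have key : ∀ N w : ℕ, 2 ≤ N → 1 ≤ w → w * (finrank ℚ (ZZ N 1) - 1) + 1 ≤ dimAlg (ZZ N w) := by
    intro N w hN hw
    have h1 := iter_ZZ (u := 1) hN le_rfl hw
    have h2 := ZZ_one_le (N := N) (by omega)
    rw [Nat.div_one] at h1
    have h3 : w * (finrank ℚ (ZZ N 1) - 1) ≤ w * (dimAlg (ZZ N 1) - 1) :=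
      Nat.mul_le_mul_left w (Nat.sub_le_sub_right h2 1)
    omega
  have h20 : ∀ w : ℕ, 1 ≤ w → w / 2 + 1 ≤ dimAlg (ZZ 2 w) := by
    intro w hw
    have h1 := iter_ZZ (N := 2) (u := 2) le_rfl (by norm_num) hw
    have h2 := two_le
    have h3 : w / 2 * 1 ≤ w / 2 * (dimAlg (ZZ 2 2) - 1) :=
      Nat.mul_le_mul_left _ (by omega)
    omega
  refine ⟨fun N w hN => ?_, fun w => ?_, fun N v w hN hv hw => super_ZZ hN hv hw,
    fun v w hv hw => super_CC hv hw, h20, fun u hu => ?_, fun w hw => two_le_CC hw,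
    fun u hu => ?_, fun M h => bounded h, key, fun N w hN hw => ?_⟩
  · have i1 := ZZ_finite hN w
    exact ⟨i1, dimAlg_le _⟩
  · have i1 := CC_finite w
    exact ⟨i1, dimAlg_le _⟩
  · rcases Nat.lt_or_ge (u / 2 + 1) (dimAlg (ZZ 2 u)) with h | h
    · exact Or.inr (more (D := fun w => dimAlg (ZZ 2 w))
        (fun v w hv hw => super_ZZ le_rfl hv hw) h20 hu h)
    · exact Or.inl (dich_two hu h)
  · rcases Nat.lt_or_ge 1 (dimAlg (CC u)) with h | h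
    · refine Or.inr fun w hw => ?_
      have h1 := iter_CC hu hw
      have h3 : w / u * 1 ≤ w / u * (dimAlg (CC u) - 1) := Nat.mul_le_mul_left _ (by omega)
      omega
    · exact Or.inl (dich hu h)
  · have h1 := key N w (by omega) hw
    have h2 := card_le_one hN
    have h3 : w * N.primeFactors.card ≤ w * (finrank ℚ (ZZ N 1) - 1) :=
      Nat.mul_le_mul_left w (by omega)
    omega

end Pool.Agent.Results.MP_528be1_nt.DimensionGrowth
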