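import Mathlib
import Pool.Agent.V8H86.GC.D

/-!
# MP_528be1_nt: multiple Clausen values and alternating sums, relations with growing number of terms

The real and imaginary parts of the multiple polylogarithms `Li_w(z, 1, ..., 1)`, `z ^ 6 = 1`, among
them the multiple Clausen values `μ_w` and the alternating sums `Li_w(-1, 1, ..., 1)`. A power
`N ^ η`, `η < 1/2`, of indices `w` of the weight `N` gives numbers without integral relations with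
coefficients up to `2 ^ (N ^ γ)`, even modulo real parts of exponentially large combinations of
multiple polylogarithms with at least `ε N` arguments `≥ 2`.

The zero estimate and the estimates for multiple zeta values are those of `Pool.Agent.R404.MZ`
(helper404), applied in residue classes.
-/

set_option autoImplicit false

namespace Pool.Agent.Results.MP_528be1_nt.GrowingSums

/-- `trunc [(s_1, z_1), ..., (s_r, z_r)] m` is the sum of `∏ z_j ^ l_j / l_j ^ s_j` over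
`m > l_1 > ... > l_r ≥ 1` -/
noncomputable def trunc : List (ℕ × ℂ) → ℕ → ℂ
  | [], _ => 1
  | x :: l, m => ∑ j ∈ Finset.Ico 1 m, x.2 ^ j / (j : ℂ) ^ x.1 * trunc l j

/-- the multiple polylogarithm `Li_{s_1, ..., s_r}(z_1, ..., z_r)`, where `(s_1, z_1)` belongs to
the largest variable -/
noncomputable def li : List (ℕ × ℂ) → ℂ
  | [] => 1
  | x :: l => ∑' k : ℕ, x.2 ^ (k + 1) / ((k + 1 : ℕ) : ℂ) ^ x.1 * trunc l (k + 1)

/-- `ω = e ^ (π i / 3)` -/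
noncomputable def omega : ℂ := Complex.exp (Real.pi * Complex.I / 3)

/-- the arguments `(a_1, z), (a_2, 1), ..., (a_n, 1)` -/
noncomputable def args (z : ℂ) : List ℕ → List (ℕ × ℂ)
  | [] => []
  | a :: k => (a, z) :: k.map fun s => (s, 1)

/-- for `u = 0, 1, 2, 3` the real part of `Li_w(ω ^ u, 1, ..., 1)`, for `u = 4, 5` the imaginary part
of `Li_w(ω ^ (u - 3), 1, ..., 1)`, divided by `√3`; so `u = 1, 4` are the parts of the multiple
Clausen value `μ_w` and `u = 0, 3` are the elements `Li_w(1, ..., 1)`, `Li_w(-1, 1, ..., 1)` of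
`Z_w(2)` -/
noncomputable def part (u : Fin 6) (w : List ℕ) : ℝ :=
  if (u : ℕ) < 4 then (li (args (omega ^ (u : ℕ)) w)).re
  else (li (args (omega ^ ((u : ℕ) - 3)) w)).im / Real.sqrt 3

/-- the number of arguments `≥ 2` -/
def height (w : List ℕ) : ℕ := w.countP (fun s => decide (2 ≤ s))

/-- indices `(a, k_2, ..., k_t)` with `N - J ≤ a ≤ N + J`, where the `k_i` are positive, their number
is at most `r` and their sum is at most `J` -/
def Near (r J N : ℕ) (w : List ℕ) : Prop :=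
  ∃ a k, w = a :: k ∧ k.length ≤ r ∧ (∀ x ∈ k, 1 ≤ x) ∧ k.sum ≤ J ∧ N ≤ a + J ∧ a ≤ N + J

/-- lists of pairs `(s_j, z_j)` with `s_j ≥ 1`, `|z_j| ≤ 1`, `s_1 ≥ 2`, weight at most `κ N` and at
least `ε N` of the `s_j` at least `2` -/
def Small (κ ε : ℝ) (N : ℕ) (h : List (ℕ × ℂ)) : Prop :=
  (∀ x ∈ h, 1 ≤ x.1 ∧ ‖x.2‖ ≤ 1) ∧ (∀ x ∈ h.head?, 2 ≤ x.1) ∧
    ((h.map Prod.fst).sum : ℝ) ≤ κ * N ∧ ε * N ≤ height (h.map Prod.fst)

/-- `sums [s_1, ..., s_r] m` is the sum of `∏ l_i ^ (-s_i)` over `m > l_1 > ... > l_r ≥ 1` -/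
noncomputable def sums : List ℕ → ℕ → ℝ
  | [], _ => 1
  | s :: l, m => ∑ j ∈ Finset.Ico 1 m, sums l j / (j : ℝ) ^ s

/-- the multiple zeta value weighted with the function `F` of the largest variable: the sum of
`F(n) n ^ (-a) sums k n` over `n ≥ 1` -/
noncomputable def weighted (F : ℕ → ℤ) : List ℕ → ℝ
  | [] => 0
  | a :: k => ∑' n : ℕ, (F (n + 1) : ℝ) * (sums k (n + 1) / ((n + 1 : ℕ) : ℝ) ^ a)

lemma trunc_eq (l : List (ℕ × ℂ)) : ∀ m, trunc l m = Pool.Agent.V8H86.GC.trc l m := by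
  induction l with
  | nil => intro m; rw [trunc, Pool.Agent.V8H86.GC.trc]
  | cons s l ih =>
    intro m
    rw [trunc, Pool.Agent.V8H86.GC.trc]
    exact Finset.sum_congr rfl fun j _ => by rw [ih]

lemma li_eq (l : List (ℕ × ℂ)) : li l = Pool.Agent.V8H86.GC.li l := by
  cases l with
  | nil => rw [li, Pool.Agent.V8H86.GC.li]
  | cons s l =>
    rw [li, Pool.Agent.V8H86.GC.li]
    exact tsum_congr fun k => by rw [trunc_eq]

lemma args_eq (z : ℂ) (w : List ℕ) : args z w = Pool.Agent.V8H86.GC.cz z w := by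
  cases w with
  | nil => rw [args, Pool.Agent.V8H86.GC.cz]
  | cons a k => rw [args, Pool.Agent.V8H86.GC.cz]

lemma part_eq (u : Fin 6) (w : List ℕ) : part u w = Pool.Agent.V8H86.GC.x6 u w := by
  unfold part Pool.Agent.V8H86.GC.x6
  rw [li_eq, li_eq, args_eq, args_eq]
  rfl

lemma sums_eq (w : List ℕ) : ∀ m, sums w m = Pool.Agent.Y760.ZG.hr w m := by
  induction w with
  | nil => intro m; rw [sums, Pool.Agent.Y760.ZG.hr_nil]
  | cons s w ih =>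
    intro m
    rw [sums, Pool.Agent.Y760.ZG.hr_cons]
    exact Finset.sum_congr rfl fun j _ => by rw [ih]

lemma weighted_eq (F : ℕ → ℤ) (w : List ℕ) : weighted F w = Pool.Agent.V8H86.GC.wsl F w := by
  cases w with
  | nil => rw [weighted, Pool.Agent.V8H86.GC.wsl]
  | cons a k =>
    rw [weighted, Pool.Agent.V8H86.GC.wsl, Pool.Agent.V8H86.GC.ws]
    exact tsum_congr fun n => by rw [sums_eq]

/-- (1) Let `0 < δ < ε`, `γ + δ < 1`, `0 < τ < 1`, let `κ, C` be real numbers and `r` a natural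
number. For all large `N`, all `J` with `12 (J + 2) ^ (r + 1) ≤ N ^ δ` and
`36 (J + 2) ^ (2 r + 3) ≤ N ^ (1 - τ)`, all finite sets `T` of indices in `Near r J N`, all integers
`a_0` and `c_{w, u}` (`w` in `T`, `0 ≤ u ≤ 5`) with `|c_{w, u}| ≤ 2 ^ (N ^ γ)`, all finite sets `H` of
lists in `Small κ ε N` and all complex `b_h` with `∑ |b_h| ≤ C ^ N`: if
`|a_0 + ∑_{w, u} c_{w, u} part_u(w) - Re ∑_H b_h Li_h| ≤ N ^ (-ε N)`, then `a_0` and all `c_{w, u}` are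
zero.
(2) Let `0 < η < ε`, `η < 1/2`, `γ + η < 1`. There is `r` such that for all large `N` there is a set
`T` of at least `N ^ η` indices of weight `N`, of length at most `r + 1` and with first argument at
least `N / 2`, for which the assertion of (1) holds.
(3) The assertion for sums weighted with periodic functions: for all large `N`, all `m ≥ 1` and `J`
with `2 m (J + 2) ^ (r + 1) ≤ N ^ δ` and `m ^ 2 (J + 2) ^ (2 r + 3) ≤ N ^ (1 - τ)`, all integer valued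
functions `F_w`, `w` in `T`, of period `m` with `|F_w| ≤ 2 ^ (N ^ γ)`: if
`|a_0 + ∑_T weighted F_w w - Re ∑_H b_h Li_h| ≤ N ^ (-ε N)`, then `a_0` and all `F_w` are zero. -/
theorem result :
    (∀ (r : ℕ) (κ C δ γ τ ε : ℝ), 0 < δ → δ < ε → γ + δ < 1 → 0 < τ → τ < 1 →
      ∃ N0 : ℕ, ∀ N : ℕ, N0 ≤ N → ∀ J : ℕ,
      12 * ((J + 2 : ℕ) : ℝ) ^ (r + 1) ≤ (N : ℝ) ^ δ →
      36 * ((J + 2 : ℕ) : ℝ) ^ (2 * r + 3) ≤ (N : ℝ) ^ (1 - τ) →
      ∀ T : Finset (List ℕ), (∀ w ∈ T, Near r J N w) → ∀ (a0 : ℤ) (c : List ℕ → Fin 6 → ℤ),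
      (∀ w ∈ T, ∀ u, |(c w u : ℝ)| ≤ (2 : ℝ) ^ ((N : ℝ) ^ γ)) →
      ∀ H : Finset (List (ℕ × ℂ)), (∀ h ∈ H, Small κ ε N h) →
      ∀ b : List (ℕ × ℂ) → ℂ, ∑ h ∈ H, ‖b h‖ ≤ C ^ N →
      |(a0 : ℝ) + ∑ w ∈ T, ∑ u, (c w u : ℝ) * part u w - (∑ h ∈ H, b h * li h).re| ≤
        ((N : ℝ) ^ (ε * N))⁻¹ →
      a0 = 0 ∧ ∀ w ∈ T, ∀ u, c w u = 0) ∧
    (∀ κ C η γ ε : ℝ, 0 < η → η < ε → η < 1 / 2 → γ + η < 1 →
      ∃ r N0 : ℕ, ∀ N : ℕ, N0 ≤ N → ∃ T : Finset (List ℕ), (N : ℝ) ^ η ≤ T.card ∧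
      (∀ w ∈ T, w ≠ [] ∧ w.length ≤ r + 1 ∧ (∀ x ∈ w, 1 ≤ x) ∧ w.sum = N ∧
        ∀ a ∈ w.head?, N ≤ 2 * a) ∧
      ∀ (a0 : ℤ) (c : List ℕ → Fin 6 → ℤ),
      (∀ w ∈ T, ∀ u, |(c w u : ℝ)| ≤ (2 : ℝ) ^ ((N : ℝ) ^ γ)) →
      ∀ H : Finset (List (ℕ × ℂ)), (∀ h ∈ H, Small κ ε N h) →
      ∀ b : List (ℕ × ℂ) → ℂ, ∑ h ∈ H, ‖b h‖ ≤ C ^ N →
      |(a0 : ℝ) + ∑ w ∈ T, ∑ u, (c w u : ℝ) * part u w - (∑ h ∈ H, b h * li h).re| ≤
        ((N : ℝ) ^ (ε * N))⁻¹ →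
      a0 = 0 ∧ ∀ w ∈ T, ∀ u, c w u = 0) ∧
    (∀ (r : ℕ) (κ C δ γ τ ε : ℝ), 0 < δ → δ < ε → γ + δ < 1 → 0 < τ → τ < 1 →
      ∃ N0 : ℕ, ∀ N : ℕ, N0 ≤ N → ∀ m J : ℕ, 1 ≤ m →
      2 * (m : ℝ) * ((J + 2 : ℕ) : ℝ) ^ (r + 1) ≤ (N : ℝ) ^ δ →
      (m : ℝ) ^ 2 * ((J + 2 : ℕ) : ℝ) ^ (2 * r + 3) ≤ (N : ℝ) ^ (1 - τ) →
      ∀ T : Finset (List ℕ), (∀ w ∈ T, Near r J N w) → ∀ (a0 : ℤ) (F : List ℕ → ℕ → ℤ),
      (∀ w ∈ T, ∀ n, F w (n + m) = F w n) →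
      (∀ w ∈ T, ∀ n, |(F w n : ℝ)| ≤ (2 : ℝ) ^ ((N : ℝ) ^ γ)) →
      ∀ H : Finset (List (ℕ × ℂ)), (∀ h ∈ H, Small κ ε N h) →
      ∀ b : List (ℕ × ℂ) → ℂ, ∑ h ∈ H, ‖b h‖ ≤ C ^ N →
      |(a0 : ℝ) + ∑ w ∈ T, weighted (F w) w - (∑ h ∈ H, b h * li h).re| ≤
        ((N : ℝ) ^ (ε * N))⁻¹ →
      a0 = 0 ∧ ∀ w ∈ T, ∀ n, F w n = 0) := by
  have key : ∀ (T : Finset (List ℕ)) (a0 : ℤ) (c : List ℕ → Fin 6 → ℤ),
      ¬ (a0 = 0 ∧ ∀ w ∈ T, ∀ u, c w u = 0) → a0 ≠ 0 ∨ ∃ w ∈ T, ∃ u, c w u ≠ 0 := by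
    intro T a0 c hcon
    by_cases h1 : a0 = 0
    · right
      by_contra h2
      push Not at h2
      exact hcon ⟨h1, h2⟩
    · exact Or.inl h1
  refine ⟨?_, ?_, ?_⟩
  · intro r κ C δ γ τ ε hδ hδε hγ hτ hτ1
    obtain ⟨N0, h0⟩ := Pool.Agent.V8H86.GC.main6 r κ C δ γ τ ε hδ hδε hγ hτ hτ1
    refine ⟨N0, fun N hN J hJ hJ' T hT a0 c hcC H hH b hb hle => ?_⟩
    by_contra hcon
    have h1 := h0 N hN J hJ hJ' T hT a0 c (key T a0 c hcon) hcC H hH b hb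
    simp only [part_eq, li_eq] at hle
    exact absurd hle (not_le.2 h1)
  · intro κ C η γ ε hη hηε hη2 hγ
    obtain ⟨r, N0, h0⟩ := Pool.Agent.V8H86.GC.main6W κ C η γ ε hη hηε hη2 hγ
    refine ⟨r, N0, fun N hN => ?_⟩
    obtain ⟨T, h1, h2, h3⟩ := h0 N hN
    refine ⟨T, h1, h2, fun a0 c hcC H hH b hb hle => ?_⟩
    by_contra hcon
    have h4 := h3 a0 c (key T a0 c hcon) hcC H hH b hb
    simp only [part_eq, li_eq] at hle
    exact absurd hle (not_le.2 h4)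
  · intro r κ C δ γ τ ε hδ hδε hγ hτ hτ1
    obtain ⟨N0, h0⟩ := Pool.Agent.V8H86.GC.mainP r 0 κ C δ γ τ ε hδ hδε hγ hτ hτ1
    refine ⟨max N0 1, fun N hN m J hm hJ hJ' T hT a0 F hper hFC H hH b hb hle => ?_⟩
    by_contra hcon
    have h1 := h0 N ((le_max_left _ _).trans hN) m J hm hJ hJ' T hT a0 F hper (by
      by_cases h1 : a0 = 0
      · right
        by_contra h2
        push Not at h2
        exact hcon ⟨h1, h2⟩
      · exact Or.inl h1) (fun w hw n => by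
        rw [pow_zero, one_mul]
        exact hFC w hw n) H hH b hb
    simp only [weighted_eq, li_eq] at hle
    have hN1 : (0 : ℝ) < N := by
      have : 0 < N := (le_max_right _ _).trans hN
      exact_mod_cast this
    have h2 : 0 < ((N : ℝ) ^ (ε * N))⁻¹ := by
      have := Real.rpow_pos_of_pos hN1 (ε * N)
      positivity
    linarith

end Pool.Agent.Results.MP_528be1_nt.GrowingSums
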