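import Mathlib
import Pool.Agent.V8H86.CV.Wt

/-!
# MP_528be1_nt: polynomials in multiple Clausen values with one large argument

Let `Λ` be a finite set of tuples of positive integers and `h ≥ 0`. We look at the multiple Clausen
values `μ_{n + j, w}`, `0 ≤ j ≤ h`, `w ∈ Λ`, for large `n`, and at their real parts and their
imaginary parts divided by `√3`. Polynomials in these numbers with integer coefficients that are not
too large are not small; linear forms in linearly independent polynomials, whose coefficients are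
sums of boundedly many `S`-units of height `e^{O(n)}`, satisfy an almost optimal lower bound; and no
word of at least `ε n` digits occurs twice, early positions excepted. In particular this describes
the relations between multiple Clausen values of weight `k` with a long first argument, hence
elements of `C_k`.

The proof uses the theorems of helper473 (`Pool.Agent.R473.DW`), helper883 (`Pool.Agent.TH883.Zg`)
and helper507 (`Pool.Agent.TH507.ZS`) on values of Dirichlet series whose coefficients are linearly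
independent at the primes. Here the coefficients at the primes `1` and `5` modulo `6` separate the
real and the imaginary parts (`Pool.Agent.V8H86.CV`).
-/

set_option autoImplicit false

namespace Pool.Agent.Results.MP_528be1_nt.PolynomialsInClausenValues

/-- `trunc [a_2, ..., a_n] m` is the sum of `∏ 1 / l_j ^ a_j` over `m > l_2 > ... > l_n ≥ 1` -/
noncomputable def trunc : List ℕ+ → ℕ → ℂ
  | [], _ => 1
  | a :: w, m => ∑ l ∈ Finset.Ico 1 m, 1 / (l : ℂ) ^ (a : ℕ) * trunc w l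

/-- the multiple Clausen value `μ_{a, w}`, that is, the sum of
`e ^ (π i l / 3) / l ^ a * ∏ 1 / l_j ^ w_j` over `l > l_1 > l_2 > ... ≥ 1` -/
noncomputable def mu (a : ℕ) (w : List ℕ+) : ℂ :=
  ∑' l : ℕ, Complex.exp (Real.pi * Complex.I / 3) ^ (l + 1) / ((l + 1 : ℕ) : ℂ) ^ a *
    trunc w (l + 1)

/-- the real part of `μ_{n + j, w}` at `(j, w, false)`, and its imaginary part divided by `√3` at
`(j, w, true)` -/
noncomputable def part {Λ : Finset (List ℕ+)} {h : ℕ} (n : ℕ) (x : (Fin (h + 1) × Λ) × Bool) : ℝ :=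
  if x.2 then (mu (n + x.1.1) x.1.2).im / Real.sqrt 3 else (mu (n + x.1.1) x.1.2).re

/-- `D` is a sum of `R` terms `a ∏ p ^ k_p`, where `p` runs over `S`, and `a` and the `k_p` are
integers with `|a| ≤ R` and `|k_p| ≤ X` -/
def UnitSum (S : Finset ℕ) (R : ℕ) (X : ℝ) (D : ℚ) : Prop :=
  ∃ (a : Fin R → ℤ) (k : Fin R → ℕ → ℤ), (∀ r, |a r| ≤ R) ∧ (∀ r, ∀ p ∈ S, |(k r p : ℝ)| ≤ X) ∧
    D = ∑ r, (a r : ℚ) * ∏ p ∈ S, (p : ℚ) ^ k r p

/-- the digit with index `k`, `k = 0, 1, 2, ...`, after the point of `x` in base `b` -/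
noncomputable def digit (b : ℕ) (x : ℝ) (k : ℕ) : ℤ := ⌊(b : ℝ) ^ (k + 1) * x⌋ % b

/-- the weight of a tuple -/
def weight (w : List ℕ+) : ℕ := (w.map fun a : ℕ+ => (a : ℕ)).sum

/-- the space `C_k` spanned by the multiple Clausen values of weight `k` -/
noncomputable def clausen (k : ℕ) : Submodule ℚ ℂ :=
  Submodule.span ℚ {z | ∃ (a : ℕ+) (w : List ℕ+), (a : ℕ) + weight w = k ∧ z = mu a w}

/-- Let `Λ` be a finite set of tuples of positive integers and `h ≥ 0`.

1. For all `d` and `C` there is `B > 1` such that for all large `n`: every nonzero integer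
polynomial `P` of degree at most `d` with coefficients at most `C ^ n` in absolute value is larger
than `B ^ (-n)` in absolute value at the real parts and the imaginary parts divided by `√3` of the
numbers `μ_{n + j, w}`, `j ≤ h`, `w ∈ Λ`; and for all such polynomials `P`, `Q` in the complex
numbers `μ_{n + j, w}` themselves, with `P ≠ 0` or `Q` not constant, the real part of
`P + √-3 Q` is larger than `B ^ (-n)` in absolute value.

2. Let `P_1, ..., P_m` be rational polynomials in these real numbers which are linearly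
independent modulo constants. For every finite set `S` of primes there is `K ≥ 2` such that for all
`R`, `C` and all `B > 1`, for large `n`, for all `D_s`, not all zero, that are sums of `R` terms
`a ∏ p ^ k_p` with `|a| ≤ R` and `|k_p| ≤ C n`, all integers `p` and all `i`,
`|∑ D_s P_s - p| > B ^ (-n) min(1, |D_i| / K ^ n)`.
For every base `b` there is `κ` such that for all `ε > 0`, `C` and large `n` no word of at least
`ε n` digits in base `b` occurs twice in the values `P_1, ..., P_m` at positions up to `C n`, the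
later of the two positions being at least `κ n`.

3. For every finite set `S` of primes there is `K ≥ 2` such that for all `R`, `C` and all `B > 1`,
for large `k`, the numbers `μ_{k - |w|, w}`, `w ∈ Λ`, are elements of `C_k` and linear forms in
their real parts and their imaginary parts divided by `√3` with such coefficients `D_w`, `E_w`, not
all zero, satisfy `|∑ (D_w Re μ + E_w Im μ / √3) - p| > B ^ (-k) min(1, (|D_i| + |E_i|) / K ^ k)`
for all integers `p` and all `i`. -/
theorem result (Λ : Finset (List ℕ+)) (h : ℕ) :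
    (∀ (d : ℕ) (C : ℝ), ∃ B : ℝ, 1 < B ∧ ∃ n0 : ℕ, ∀ n : ℕ, n0 ≤ n →
      (∀ P : MvPolynomial ((Fin (h + 1) × Λ) × Bool) ℤ, P ≠ 0 → P.totalDegree ≤ d →
        (∀ e, |((P.coeff e : ℤ) : ℝ)| ≤ C ^ n) → (B ^ n)⁻¹ < |MvPolynomial.aeval (part n) P|) ∧
      ∀ P Q : MvPolynomial (Fin (h + 1) × Λ) ℤ, (P ≠ 0 ∨ ∀ c : ℤ, Q ≠ MvPolynomial.C c) →
        P.totalDegree ≤ d → Q.totalDegree ≤ d →
        (∀ e, |((P.coeff e : ℤ) : ℝ)| ≤ C ^ n) → (∀ e, |((Q.coeff e : ℤ) : ℝ)| ≤ C ^ n) →
        (B ^ n)⁻¹ < |(MvPolynomial.aeval (fun x : Fin (h + 1) × Λ => mu (n + x.1) x.2) P +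
          Real.sqrt 3 * Complex.I *
            MvPolynomial.aeval (fun x : Fin (h + 1) × Λ => mu (n + x.1) x.2) Q).re|) ∧
    (∀ (m : ℕ) (P : Fin m → MvPolynomial ((Fin (h + 1) × Λ) × Bool) ℚ),
      (∀ (v : Fin m → ℚ) (c : ℚ), ∑ s, v s • P s = MvPolynomial.C c → v = 0) →
      (∀ S : Finset ℕ, (∀ p ∈ S, p.Prime) → ∃ K : ℕ, 2 ≤ K ∧ ∀ (R : ℕ) (C B : ℝ), 1 < B →
        ∃ n0 : ℕ, ∀ n : ℕ, n0 ≤ n → ∀ D : Fin m → ℚ, (∀ s, UnitSum S R (C * n) (D s)) →
        (∃ s, D s ≠ 0) → ∀ (p : ℤ) (i : Fin m),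
          (B ^ n)⁻¹ * min 1 (|(D i : ℝ)| / (K : ℝ) ^ n) <
            |∑ s, (D s : ℝ) * MvPolynomial.aeval (part n) (P s) - p|) ∧
      ∀ b : ℕ, 2 ≤ b → ∃ κ : ℝ, ∀ ε C : ℝ, 0 < ε → ∃ n0 : ℕ, ∀ n : ℕ, n0 ≤ n →
        ∀ (s s' : Fin m) (i j : ℕ), (i : ℝ) ≤ C * n → (j : ℝ) ≤ C * n → κ * n ≤ max i j →
        (s, i) ≠ (s', j) → ∃ l : ℕ, (l : ℝ) < ε * n ∧
          digit b (MvPolynomial.aeval (part n) (P s)) (i + l) ≠
          digit b (MvPolynomial.aeval (part n) (P s')) (j + l)) ∧
    ∀ S : Finset ℕ, (∀ p ∈ S, p.Prime) → ∃ K : ℕ, 2 ≤ K ∧ ∀ (R : ℕ) (C B : ℝ), 1 < B →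
      ∃ k0 : ℕ, ∀ k : ℕ, k0 ≤ k → (∀ w : Λ, mu (k - weight w) w ∈ clausen k) ∧
        ∀ D E : Λ → ℚ, (∀ w, UnitSum S R (C * k) (D w)) → (∀ w, UnitSum S R (C * k) (E w)) →
        (∃ w, D w ≠ 0 ∨ E w ≠ 0) → ∀ (p : ℤ) (i : Λ),
          (B ^ k)⁻¹ * min 1 ((|(D i : ℝ)| + |(E i : ℝ)|) / (K : ℝ) ^ k) <
            |∑ w : Λ, ((D w : ℝ) * (mu (k - weight w) w).re +
              (E w : ℝ) * ((mu (k - weight w) w).im / Real.sqrt 3)) - p| := by
  classical
  have h1 : ∀ (w : List ℕ+) (m : ℕ), trunc w m = ((Pool.Agent.TH507.HS.hs w m : ℚ) : ℂ) := by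
    intro w
    induction w with
    | nil =>
      intro m
      rw [trunc, Pool.Agent.TH507.HS.hs_nil, Rat.cast_one]
    | cons a w ih =>
      intro m
      rw [trunc, Pool.Agent.TH507.HS.hs_cons]
      push_cast
      refine Finset.sum_congr rfl fun j _ => ?_
      rw [ih]
      ring
  have h2 : ∀ (a : ℕ) (w : List ℕ+), mu a w = Pool.Agent.V8H86.CV.mcv a w := by
    intro a w
    rw [mu, Pool.Agent.V8H86.CV.mcv]
    exact tsum_congr fun k => by rw [h1, Pool.Agent.V8H86.CV.om]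
  have h3 : ∀ n : ℕ, (part n : (Fin (h + 1) × Λ) × Bool → ℝ) = Pool.Agent.V8H86.CV.cv n := by
    intro n
    funext x
    rw [part, Pool.Agent.V8H86.CV.cv, h2]
  have h4 : ∀ (n : ℕ) (x : Fin (h + 1) × Λ), mu (n + x.1) x.2 =
      ((Pool.Agent.V8H86.CV.cv n (x, false) : ℝ) : ℂ) +
        Pool.Agent.V8H86.CV.r3 * ((Pool.Agent.V8H86.CV.cv n (x, true) : ℝ) : ℂ) := by
    intro n x
    have h5 : Real.sqrt 3 ≠ 0 := by
      rw [Real.sqrt_ne_zero (by norm_num)]
      norm_num
    rw [h2]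
    simp only [Pool.Agent.V8H86.CV.cv, if_true, Bool.false_eq_true, if_false,
      Pool.Agent.V8H86.CV.r3]
    apply Complex.ext
    · simp
    · simp
      field_simp
  refine ⟨?_, ?_, ?_⟩
  · intro d C
    obtain ⟨B1, hB1, n1, hmain1⟩ := Pool.Agent.V8H86.CV.real_main Λ h d C
    obtain ⟨B2, hB2, n2, hmain2⟩ := Pool.Agent.V8H86.CV.cpx_main
      (J := Fin (h + 1) × Λ) (fun x n => Pool.Agent.V8H86.CV.cv n x)
      (fun d C => Pool.Agent.V8H86.CV.real_main Λ h d C) d C
    have hB : ∀ (n : ℕ) (B' : ℝ), 1 < B' → B' ≤ max B1 B2 → (max B1 B2 ^ n)⁻¹ ≤ (B' ^ n)⁻¹ := by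
      intro n B' h5 h6
      have h7 : 0 < B' ^ n := by positivity
      gcongr
    refine ⟨max B1 B2, lt_max_of_lt_left hB1, n1 + n2, fun n hn => ⟨fun P hP hPd hPC => ?_,
      fun P Q hPQ hPd hQd hPC hQC => ?_⟩⟩
    · rw [h3]
      exact lt_of_le_of_lt (hB n B1 hB1 (le_max_left _ _)) (hmain1 n (by omega) P hP hPd hPC)
    · have h5 := hmain2 n (by omega) P Q hPQ hPd hQd hPC hQC
      simp only [h4]
      exact lt_of_le_of_lt (hB n B2 hB2 (le_max_right _ _)) h5
  · intro m P hP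
    refine ⟨fun S hS => ?_, fun b hb => ?_⟩
    · simp only [h3]
      exact Pool.Agent.V8H86.CV.cv_forms P hP hS
    · simp only [h3]
      exact Pool.Agent.V8H86.CV.cv_digits P hP hb
  · intro S hS
    obtain ⟨K, hK, hmain⟩ := Pool.Agent.V8H86.CV.wt_forms Λ hS
    refine ⟨K, hK, fun R C B hB => ?_⟩
    obtain ⟨k0, hk0⟩ := hmain R C B hB
    refine ⟨k0 + ∑ w ∈ Λ, (weight w + 1), fun k hk => ⟨fun w => ?_, ?_⟩⟩
    · have h5 : weight w.1 + 1 ≤ ∑ w ∈ Λ, (weight w + 1) :=
        Finset.single_le_sum (f := fun w => weight w + 1) (fun _ _ => Nat.zero_le _) w.2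
      refine Submodule.subset_span ⟨⟨k - weight w.1, by omega⟩, w.1, ?_, rfl⟩
      show k - weight w.1 + weight w.1 = k
      omega
    · intro D E hD hE hDE p i
      simp only [h2]
      exact hk0 k (by omega) D E hD hE hDE p i

end Pool.Agent.Results.MP_528be1_nt.PolynomialsInClausenValues
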