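import Mathlib
import Pool.Agent.V8H78.RC.Cl

/-!
# MP_528be1_nt: short sums of multiple Clausen values and of alternating sums with moving indices

Any bounded number of multiple Clausen values `μ_w`, `w = (a, k_2, ..., k_t)`, `t ≤ r`, with
`n ≤ a` and all arguments at most `κ n`, has no relation (not even between the real and imaginary
parts and `1`) with coefficients in a number field of height at most `C ^ n`, for all large `n`,
with the measure `B ^ (-n)`, and modulo real parts of sums of multiple polylogarithms with at least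
`ε n` arguments `≥ 2`. The indices may vary freely with `n`. The same for the alternating sums
`Li_w(-1, 1, ..., 1)`, and for sums weighted with functions of the largest variable that are
independent on the primes.

The proof extends the method of `Pool.Agent.Y760.ZF` (helper760; subspace theorem, large primes) to
weighted sums, using primes in residue classes.
-/

set_option autoImplicit false

namespace Pool.Agent.Results.MP_528be1_nt.ShortSums

/-- `trunc [(s_1, z_1), ..., (s_r, z_r)] m` is the sum of `∏ z_j ^ l_j / l_j ^ s_j` over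
`m > l_1 > ... > l_r ≥ 1` -/
noncomputable def trunc : List (ℕ × ℂ) → ℕ → ℂ
  | [], _ => 1
  | x :: l, m => ∑ j ∈ Finset.Ico 1 m, x.2 ^ j / (j : ℂ) ^ x.1 * trunc l j

/-- the multiple polylogarithm `Li_{s_1, ..., s_r}(z_1, ..., z_r)`, where `(s_1, z_1)` belongs to
the largest variable -/
noncomputable def li : List (ℕ × ℂ) → ℂ
  | [] => 1
  | x :: l => ∑' k : ℕ, x.2 ^ (k + 1) / ((k + 1 : ℕ) : ℂ) ^ x.1 * trunc l (k + 1)

/-- `ω = e ^ (π i / 3)` -/
noncomputable def omega : ℂ := Complex.exp (Real.pi * Complex.I / 3)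

/-- the arguments `(a_1, z), (a_2, 1), ..., (a_n, 1)`; so `li (args omega w)` is the multiple
Clausen value `μ_w` and `li (args (omega ^ 3) w)` is `Li_w(-1, 1, ..., 1)` -/
noncomputable def args (z : ℂ) : List ℕ → List (ℕ × ℂ)
  | [] => []
  | a :: k => (a, z) :: k.map fun s => (s, 1)

/-- nonempty indices of length at most `r` whose first argument is at least `n` and whose arguments
are positive and at most `κ n` -/
def Admissible (r : ℕ) (κ : ℝ) (n : ℕ) (w : List ℕ) : Prop :=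
  w ≠ [] ∧ w.length ≤ r ∧ (∀ m ∈ w, 1 ≤ m ∧ (m : ℝ) ≤ κ * n) ∧ ∀ a ∈ w.head?, n ≤ a

/-- the number of arguments `≥ 2` -/
def height (w : List ℕ) : ℕ := w.countP (fun s => decide (2 ≤ s))

/-- lists of pairs `(s_j, z_j)` with `s_j ≥ 1`, `|z_j| ≤ 1`, `s_1 ≥ 2`, weight at most `κ n` and at
least `ε n` of the `s_j` at least `2` -/
def Small (κ ε : ℝ) (n : ℕ) (h : List (ℕ × ℂ)) : Prop :=
  (∀ x ∈ h, 1 ≤ x.1 ∧ ‖x.2‖ ≤ 1) ∧ (∀ x ∈ h.head?, 2 ≤ x.1) ∧
    ((h.map Prod.fst).sum : ℝ) ≤ κ * n ∧ ε * n ≤ height (h.map Prod.fst)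

/-- `sums [s_1, ..., s_r] m` is the sum of `∏ l_i ^ (-s_i)` over `m > l_1 > ... > l_r ≥ 1` -/
noncomputable def sums : List ℕ → ℕ → ℝ
  | [], _ => 1
  | s :: l, m => ∑ j ∈ Finset.Ico 1 m, sums l j / (j : ℝ) ^ s

/-- the multiple zeta value weighted with the function `F` of the largest variable: the sum of
`F(m) m ^ (-a) sums k m` over `m ≥ 1` -/
noncomputable def weighted (F : ℕ → ℝ) : List ℕ → ℝ
  | [] => 1
  | a :: k => ∑' m : ℕ, F (m + 1) * (sums k (m + 1) / ((m + 1 : ℕ) : ℝ) ^ a)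

/-- no nontrivial real combination of the functions vanishes at all large primes -/
def PrimeIndependent {k : ℕ} (F : Fin k → ℕ → ℝ) : Prop :=
  ∀ c : Fin k → ℝ, (∃ P : ℕ, ∀ p : ℕ, p.Prime → P ≤ p → ∑ e, c e * F e p = 0) → c = 0

lemma trunc_eq (l : List (ℕ × ℂ)) : ∀ m, trunc l m = Pool.Agent.V8H86.GC.trc l m := by
  induction l with
  | nil => intro m; rw [trunc, Pool.Agent.V8H86.GC.trc]
  | cons s l ih =>
    intro m
    rw [trunc, Pool.Agent.V8H86.GC.trc]
    exact Finset.sum_congr rfl fun j _ => by rw [ih]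

lemma li_eq (l : List (ℕ × ℂ)) : li l = Pool.Agent.V8H86.GC.li l := by
  cases l with
  | nil => rw [li, Pool.Agent.V8H86.GC.li]
  | cons s l =>
    rw [li, Pool.Agent.V8H86.GC.li]
    exact tsum_congr fun k => by rw [trunc_eq]

lemma args_eq (z : ℂ) (w : List ℕ) : args z w = Pool.Agent.V8H86.GC.cz z w := by
  cases w with
  | nil => rw [args, Pool.Agent.V8H86.GC.cz]
  | cons a k => rw [args, Pool.Agent.V8H86.GC.cz]

lemma sums_eq (w : List ℕ) : ∀ m, sums w m = Pool.Agent.Y760.ZG.hr w m := by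
  induction w with
  | nil => intro m; rw [sums, Pool.Agent.Y760.ZG.hr_nil]
  | cons s w ih =>
    intro m
    rw [sums, Pool.Agent.Y760.ZG.hr_cons]
    exact Finset.sum_congr rfl fun j _ => by rw [ih]

lemma weighted_eq (F : ℕ → ℝ) (w : List ℕ) : weighted F w = Pool.Agent.Y760.ZF.RC.mzT F w := by
  cases w with
  | nil => rw [weighted, Pool.Agent.Y760.ZF.RC.mzT]
  | cons a k =>
    rw [weighted, Pool.Agent.Y760.ZF.RC.mzT, Pool.Agent.Y760.ZG.tl]
    refine tsum_congr fun m => ?_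
    rw [sums_eq, Pool.Agent.Y760.ZF.RC.tmT]

/-- Let `β_1, ..., β_l` be real algebraic numbers, linearly independent over `ℚ`, let `N`, `r` be
natural numbers, `κ, C` real numbers and `ε > 0`.

(1) Let `0 ≤ u ≤ 3` and `v = 1` or `2` (for example `u = v = 1`: multiple Clausen values, `u = 3`:
alternating sums). There are `B > 1` and `n0` such that for all `n ≥ n0`, all sets `T` of at most
`N` admissible indices, all integers `a0_j`, `a_{w j}`, `b_{w j}`, not all zero (`w` in `T`), of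
absolute value at most `C ^ n`, and all finite combinations `y` of the `li h`, `h` in
`Small κ ε n`, with complex coefficients `c_h`, `∑ |c_h| ≤ C ^ n`, the number
`∑_j β_j a0_j + ∑_w (∑_j β_j a_{w j}) Re Li_w(ω ^ u, 1, ..., 1)
  + ∑_w (∑_j β_j b_{w j}) Im Li_w(ω ^ v, 1, ..., 1) / √3 - Re y`
is greater than `B ^ (-n)` in absolute value.

(2) Let `F_0, ..., F_k` be functions with finitely many values, all algebraic, such that no
nontrivial real combination vanishes at all large primes. There are `B > 1` and `n0` such that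
for all `n ≥ n0`, all `T` and `y` as in (1) and all integers `a0_j`, `a_{w e j}` (`w` in `T`,
`0 ≤ e ≤ k`), not all zero, of absolute value at most `C ^ n`,
`|∑_j β_j a0_j + ∑_w ∑_e (∑_j β_j a_{w e j}) weighted F_e w - Re y| > B ^ (-n)`. -/
theorem result {l : ℕ} (β : Fin l → ℝ) (hβ : ∀ j, IsAlgebraic ℚ (β j))
    (hli : LinearIndependent ℚ β) (N r : ℕ) (κ C ε : ℝ) (hε : 0 < ε) :
    (∀ u v : ℕ, u ≤ 3 → v = 1 ∨ v = 2 →
      ∃ B : ℝ, 1 < B ∧ ∃ n0 : ℕ, ∀ n : ℕ, n0 ≤ n → ∀ T : Finset (List ℕ), T.card ≤ N →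
      (∀ w ∈ T, Admissible r κ n w) →
      ∀ (a0 : Fin l → ℤ) (a b : List ℕ → Fin l → ℤ),
      ((∃ j, a0 j ≠ 0) ∨ ∃ w ∈ T, ∃ j, a w j ≠ 0 ∨ b w j ≠ 0) →
      (∀ j, |(a0 j : ℝ)| ≤ C ^ n) →
      (∀ w ∈ T, ∀ j, |(a w j : ℝ)| ≤ C ^ n ∧ |(b w j : ℝ)| ≤ C ^ n) →
      ∀ H : Finset (List (ℕ × ℂ)), (∀ h ∈ H, Small κ ε n h) →
      ∀ c : List (ℕ × ℂ) → ℂ, ∑ h ∈ H, ‖c h‖ ≤ C ^ n →
      (B ^ n)⁻¹ < |∑ j, β j * a0 j +
        ∑ w ∈ T, ((∑ j, β j * a w j) * (li (args (omega ^ u) w)).re +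
          (∑ j, β j * b w j) * ((li (args (omega ^ v) w)).im / Real.sqrt 3)) -
        (∑ h ∈ H, c h * li h).re|) ∧
    (∀ (k : ℕ) (F : Fin (k + 1) → ℕ → ℝ), (∀ e, (Set.range (F e)).Finite) →
      (∀ e m, IsAlgebraic ℚ (F e m)) → PrimeIndependent F →
      ∃ B : ℝ, 1 < B ∧ ∃ n0 : ℕ, ∀ n : ℕ, n0 ≤ n → ∀ T : Finset (List ℕ), T.card ≤ N →
      (∀ w ∈ T, Admissible r κ n w) →
      ∀ (a0 : Fin l → ℤ) (a : List ℕ → Fin (k + 1) → Fin l → ℤ),
      ((∃ j, a0 j ≠ 0) ∨ ∃ w ∈ T, ∃ e j, a w e j ≠ 0) →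
      (∀ j, |(a0 j : ℝ)| ≤ C ^ n) → (∀ w ∈ T, ∀ e j, |(a w e j : ℝ)| ≤ C ^ n) →
      ∀ H : Finset (List (ℕ × ℂ)), (∀ h ∈ H, Small κ ε n h) →
      ∀ c : List (ℕ × ℂ) → ℂ, ∑ h ∈ H, ‖c h‖ ≤ C ^ n →
      (B ^ n)⁻¹ < |∑ j, β j * a0 j +
        ∑ w ∈ T, ∑ e, (∑ j, β j * a w e j) * weighted (F e) w -
        (∑ h ∈ H, c h * li h).re|) := by
  classical
  constructor
  · intro u v hu hv
    obtain ⟨B, hB, n0, h0⟩ := Pool.Agent.Y760.ZF.RC.main6 hu hv β hβ hli N r κ C ε hε
    refine ⟨B, hB, n0, fun n hn T hTN hT a0 a b hab hC0 hC H hH c hc => ?_⟩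
    have h1 := h0 n hn T hTN (fun w hw => ⟨(hT w hw).1, (hT w hw).2.1, (hT w hw).2.2⟩) a0
      (fun w e => if e = 0 then a w else b w) (by
        rcases hab with h | ⟨w, hw, j, h | h⟩
        · exact Or.inl h
        · exact Or.inr ⟨w, hw, 0, j, by simpa using h⟩
        · exact Or.inr ⟨w, hw, 1, j, by simpa using h⟩) hC0 (fun w hw e j => by
        by_cases he : e = 0
        · rw [if_pos he]
          exact (hC w hw j).1
        · rw [if_neg he]
          exact (hC w hw j).2) H (fun h hh => hH h hh) c hc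
    simp only [Fin.sum_univ_two, if_true, if_neg (show ¬ (1 : Fin 2) = 0 by decide),
      Pool.Agent.Y760.ZF.RC.part2] at h1
    simp only [li_eq, args_eq]
    exact h1
  · intro k F hF1 hF2 hF3
    have hfin : (⋃ e, Set.range (F e)).Finite := Set.finite_iUnion hF1
    obtain ⟨B, hB, n0, h0⟩ := Pool.Agent.Y760.ZF.RC.mainH β hβ hli (0 : Fin (k + 1)) (ψ := F)
      hfin.toFinset (fun v hv => by
        rw [Set.Finite.mem_toFinset, Set.mem_iUnion] at hv
        obtain ⟨e, m, rfl⟩ := hv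
        exact hF2 e m) (fun e m => by
        rw [Set.Finite.mem_toFinset, Set.mem_iUnion]
        exact ⟨e, m, rfl⟩) hF3 N r κ C ε hε
    refine ⟨B, hB, n0, fun n hn T hTN hT a0 a ha hC0 hC H hH c hc => ?_⟩
    have h1 := h0 n hn T hTN (fun w hw => ⟨(hT w hw).1, (hT w hw).2.1, (hT w hw).2.2⟩) a0 a
      ha hC0 hC H (fun h hh => hH h hh) c hc
    simp only [li_eq, weighted_eq]
    exact h1

end Pool.Agent.Results.MP_528be1_nt.ShortSums
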